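import Pool.Agent.N12.MH.Ht

set_option autoImplicit false

/-!
# MP_069854_nt: the shifted moments of zeta along almost all dilates of an arbitrary sequence

Let `x 0, x 1, …` be ANY sequence of real numbers with `x j + 1 ≤ x (j + 1)` (any increasing sequence of integers, for example
the primes, the values of a polynomial, or a set without any arithmetic structure). We replace the mean over `[0, T]` in the
normalised shifted moment `Q_k(v, T)` of the problem by the mean over the heights `α x_j + β`, `J₁ ≤ j < J₂`, in `[T, 2T]`.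
For every `k ≥ 1` and almost every real number `α`, tested against functions of `v` whose Fourier transform is supported near
the lower edge of the spectrum, this sparse shifted moment has the limit predicted by the unitary matrix integrals, with the
exact arithmetic factor `a_k`; this holds uniformly in the translation `β` and in the window of indices, as soon as the window
has at least `T ^ κ` and at least `J₂ ^ ρ` terms, `κ > 0` and `ρ > 1/2` fixed.

Proof. By a second moment estimate and the Borel-Cantelli lemma, for almost all `α` the exponential sums of `α x_j log (m/n)`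
over dyadic blocks, and so over all these windows, are small by a power of the length, simultaneously for all different
`m`, `n` up to a small power of the length (`Pool.Agent.N12.MH`). Then the limit theorem for the shifted moments of zeta over
sparse sets of heights with small character sums of helper461 (`Pool.Agent.R461.HM`) can be applied.
-/

namespace Pool.Agent.Results.MP_069854_nt.DilatedSequences

open Complex MeasureTheory
open scoped ContDiff
open Pool.Agent.N12.MH (Window)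

noncomputable section

/-- the arithmetic factor `a_k` -/
def arithmeticFactor (k : ℕ) : ℝ :=
  ∏' p : Nat.Primes, ((1 - 1 / (p : ℝ)) ^ (k ^ 2) *
    ∑' m : ℕ, ((m + k - 1).choose m : ℝ) ^ 2 * (1 / (p : ℝ)) ^ m)

/-- `φ(v) = ∫ ψ(ξ) e^{iξv} dξ` -/
def phi (ψ : ℝ → ℂ) (v : ℝ) : ℂ := ∫ ξ : ℝ, ψ ξ * exp (I * ξ * v)

/-- the normalised shifted moment over the heights `α x_j + β`, `J₁ ≤ j < J₂`, with the shift `v / log T` -/
def shifted (k : ℕ) (x : ℕ → ℝ) (α β T : ℝ) (J₁ J₂ : ℕ) (v : ℝ) : ℂ :=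
  ((Real.log T : ℂ) ^ (k ^ 2))⁻¹ * (((J₂ - J₁ : ℕ) : ℂ)⁻¹ * ∑ j ∈ Finset.Ico J₁ J₂,
    riemannZeta (1 / 2 + I * v / Real.log T + I * ((α * x j + β : ℝ) : ℂ)) ^ k *
      riemannZeta (1 / 2 + I * v / Real.log T - I * ((α * x j + β : ℝ) : ℂ)) ^ k)

lemma phi_eq (ψ : ℝ → ℂ) (v : ℝ) : phi ψ v = W182.KO.P ψ (v * I) := by
  unfold phi W182.KO.P
  congr 1; funext ξ
  congr 2
  ring

/-- **The shifted moments of zeta along almost all dilates of an arbitrary sequence.** Let `k ≥ 1`, `κ > 0`, `1/2 < ρ ≤ 1`, let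
`x` be a sequence with `x j + 1 ≤ x (j + 1)` and let `ψ` be smooth with compact support and vanish above `κ (ρ - 1/2) / 40`.
For almost every real `α` the integral of `φ(v)` times the normalised shifted moment over the heights `α x_j + β`,
`J₁ ≤ j < J₂`, with the shift `v / log T` tends to `2 π a_k ∫_0^∞ u ^ (k ^ 2 - 1) / (k ^ 2 - 1)! ψ(2 u) du` for `T → ∞`,
uniformly in `β` and in the windows with at least `T ^ κ` and at least `J₂ ^ ρ` terms and all `α x_j + β` in `[T, 2T]`. -/
theorem result (k : ℕ) (hk : 1 ≤ k) (κ ρ : ℝ) (hκ : 0 < κ) (hρ : 1 / 2 < ρ) (hρ1 : ρ ≤ 1)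
    (x : ℕ → ℝ) (hx : ∀ j, x j + 1 ≤ x (j + 1)) (ψ : ℝ → ℂ) (hψ : ContDiff ℝ ∞ ψ) (hc : HasCompactSupport ψ)
    (hs : ∀ ξ : ℝ, κ * (ρ - 1 / 2) / 40 < ξ → ψ ξ = 0) :
    ∀ᵐ α : ℝ, ∀ δ : ℝ, 0 < δ → ∃ T₀ : ℝ, ∀ T : ℝ, T₀ ≤ T →
      ∀ (J₁ J₂ : ℕ) (β : ℝ), Window x κ ρ α β T J₁ J₂ →
        Integrable (fun v : ℝ => phi ψ v * shifted k x α β T J₁ J₂ v) ∧
        ‖(∫ v : ℝ, phi ψ v * shifted k x α β T J₁ J₂ v) - 2 * Real.pi * arithmeticFactor k *
          ∫ u in Set.Ioi (0:ℝ), (u : ℂ) ^ (k ^ 2 - 1) / (k ^ 2 - 1).factorial * ψ (2 * u)‖ ≤ δ := by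
  have hη0 : 0 < ρ - 1 / 2 := by linarith
  have hθ : 0 < κ * (ρ - 1 / 2) / 80 := by positivity
  have hθ' : κ * (ρ - 1 / 2) / 80 < κ * (ρ - 1 / 2) / 40 := by
    have : 0 < κ * (ρ - 1 / 2) := by positivity
    linarith
  filter_upwards [Pool.Agent.N12.MH.heights_ae hx hκ hρ hρ1] with α hα
  intro δ hδ
  obtain ⟨T₂, hα⟩ := hα
  have hs' : ∀ ξ : ℝ, 2 * (κ * (ρ - 1 / 2) / 80) < ξ → ψ ξ = 0 := by
    intro ξ hξ
    refine hs ξ ?_
    linarith
  obtain ⟨T₁, hT₁, h⟩ := Pool.Agent.R461.HM.limit_form hθ.le hθ' hψ hc hs' hk δ hδ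
  refine ⟨max T₁ T₂, fun T hT J₁ J₂ β hw => ?_⟩
  obtain ⟨h1, h2⟩ := h T ((le_max_left _ _).trans hT) _ (hα T ((le_max_right _ _).trans hT) J₁ J₂ β hw)
  have e : (fun v : ℝ => phi ψ v * shifted k x α β T J₁ J₂ v) =
      fun v : ℝ => W182.KO.P ψ (v * I) *
        Pool.Agent.R461.HM.Qn k (Pool.Agent.R461.HM.unif (J₂ - J₁) (fun j => α * x (J₁ + j) + β)) v T := by
    funext v
    rw [phi_eq]
    unfold shifted Pool.Agent.R461.HM.Qn
    rw [Pool.Agent.R461.HM.integral_unif, Finset.sum_Ico_eq_sum_range]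
  rw [e]
  exact ⟨h1, h2⟩

end

end Pool.Agent.Results.MP_069854_nt.DilatedSequences
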