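import Pool.Agent.N748.JX.Main
import Pool.Agent.N748.MJ.Rl

set_option autoImplicit false

/-!
# The exact joint law of zeta at several shifted points near the critical line, at all large deviation scales
-/

namespace Pool.Agent.Results.MP_069854_nt.JointLargeValues

open MeasureTheory Filter Topology

/-- the modulus of zeta at distance `d` from the critical line and height `t` -/
noncomputable def z (d t : ℝ) : ℝ := ‖riemannZeta (1 / 2 + d + t * Complex.I)‖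

/-- the coefficient of `x^n` in `∏ (1 - x q^(-i h_j))^(-k_j)` -/
noncomputable def c {m : ℕ} (k h : Fin m → ℝ) (q n : ℕ) : ℂ :=
  ∑ μ ∈ Finset.piAntidiag (Finset.univ : Finset (Fin m)) n,
    ∏ j, (((∏ i ∈ Finset.range (μ j), (k j + i) / ((i : ℝ) + 1) : ℝ) : ℂ) *
      (q : ℂ) ^ (-((μ j * h j : ℝ) * Complex.I)))

/-- the arithmetic factor `∏_p ∏_(j,l) |1 - p^(-1-i(h_j-h_l))|^(k_j k_l) ∑_n |c(n)|² p^(-n)` -/
noncomputable def A {m : ℕ} (k h : Fin m → ℝ) : ℝ :=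
  ∏' p : Nat.Primes, (∏ j, ∏ l, ‖1 - ((p : ℕ) : ℂ) ^ (-(1 + ((h j - h l : ℝ) : ℂ) * Complex.I))‖ ^ (k j * k l)) *
    ∑' n : ℕ, ‖c k h p n‖ ^ 2 * (1 / ((p : ℕ) : ℝ)) ^ n

/-- the matrix `log |ζ(1 + 2 d + i (h_j - h_l))|` -/
noncomputable def Q {m : ℕ} (d : ℝ) (h : Fin m → ℝ) : Matrix (Fin m) (Fin m) ℝ :=
  fun j l => Real.log ‖riemannZeta (((1 + 2 * d : ℝ) : ℂ) + ((h j - h l : ℝ) : ℂ) * Complex.I)‖

/-- the quadratic form of a matrix -/
noncomputable def q {m : ℕ} (M : Matrix (Fin m) (Fin m) ℝ) (x : Fin m → ℝ) : ℝ := ∑ j, ∑ l, x j * x l * M j l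

/-- the proportion of a set of heights in `[0, T]` -/
noncomputable def P (T : ℝ) (S : Set ℝ) : ℝ := (1 / T) * (volume {t : ℝ | 0 ≤ t ∧ t ≤ T ∧ t ∈ S}).toReal

lemma A_eq {m : ℕ} (k h : Fin m → ℝ) : (Pool.Agent.N748.MJ.aV (fun j => (k j : ℂ)) (fun j => (k j : ℂ)) h).re = A k h ∧
    0 < A k h := Pool.Agent.N748.MJ.aR_eq k h

lemma quot (s e A p D : ℝ) (hD : D ≠ 0) : s * Real.exp e / A * p / (1 / D) = p / (A * Real.exp (-e) / (s * D)) := by
  rcases eq_or_ne A 0 with h | h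
  · simp [h]
  rcases eq_or_ne s 0 with h' | h'
  · simp [h']
  rw [Real.exp_neg]
  have := (Real.exp_pos e).ne'
  field_simp

theorem result (d : ℝ → ℝ) (hd0 : ∀ᶠ T : ℝ in atTop, 0 < d T) (hd : Tendsto d atTop (𝓝 0))
    (hdL : Tendsto (fun T : ℝ => d T * Real.log T / Real.log (1 / d T) ^ 2) atTop atTop) (m : ℕ) :
    (∀ h : ℝ → Fin m → ℝ, (∀ᶠ T : ℝ in atTop, ∀ j, |h T j| ≤ T ^ ((1:ℝ) / 2)) →
      (∃ ε : ℝ, 0 < ε ∧ ∀ᶠ T : ℝ in atTop, ∀ x : Fin m → ℝ, ε * Real.log (1 / d T) * ∑ j, x j ^ 2 ≤ q (Q (d T) (h T)) x) →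
      ∀ V : Fin m → ℝ,
      (∀ F : (Fin m → ℝ) → ℝ, Measurable F → (∃ S : Set (Fin m → ℝ), volume S = 0 ∧ ∀ x, x ∉ S → ContinuousAt F x) →
        (∃ C : ℝ, ∀ x, |F x| ≤ C) → (∃ C : ℝ, ∀ x, |F x| * ∏ j, (1 + x j ^ 2) ≤ C * Real.exp (2 * ∑ j, V j * x j)) →
        Tendsto (fun T : ℝ => Real.sqrt (Real.pi ^ m * (Q (d T) (h T)).det) * Real.exp (q (Q (d T) (h T)) V) /
          A V (h T) * ((1 / T) * ∫ t in (0:ℝ)..T,
            F (fun j => Real.log (z (d T) (t + h T j)) - ∑ l, Q (d T) (h T) j l * V l)))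
          atTop (𝓝 (∫ x, Real.exp (-(2 * ∑ j, V j * x j)) * F x))) ∧
      ((∀ j, 0 < V j) → Tendsto (fun T : ℝ =>
        P T {t | ∀ j, Real.exp (∑ l, Q (d T) (h T) j l * V l) < z (d T) (t + h T j)} /
          (A V (h T) * Real.exp (-(q (Q (d T) (h T)) V)) /
            (Real.sqrt (Real.pi ^ m * (Q (d T) (h T)).det) * ∏ j, 2 * V j))) atTop (𝓝 1))) ∧
    (∀ h V : Fin m → ℝ, Function.Injective h → (∀ j, 0 < V j) → Tendsto (fun T : ℝ =>
      P T {t | ∀ j, (2 * d T) ^ (-(V j)) < z (d T) (t + h j)} /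
        (A V h * (∏ j, ∏ l, if j = l then 1 else ‖riemannZeta (1 + ((h j - h l : ℝ) : ℂ) * Complex.I)‖ ^ (V j * V l)) *
          ∏ j, (2 * d T) ^ (V j ^ 2) / (2 * V j * Real.sqrt (Real.pi * Real.log (1 / (2 * d T)))))) atTop (𝓝 1)) := by
  have hA : Pool.Agent.N748.MG.Ad d := ⟨hd0, hd, hdL⟩
  have hsmall : ∀ᶠ T : ℝ in atTop, d T < 1 / 2 := hd.eventually (gt_mem_nhds (by norm_num))
  refine ⟨fun h hh hε V => ⟨fun F hF hS hb hb2 => ?_, fun hV => ?_⟩, fun h V hinj hV => ?_⟩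
  · have h1 := Pool.Agent.N748.JX.jxlF d hA m h ⟨hh, hε⟩ V F hF hS hb hb2
    refine h1.congr fun T => ?_
    rw [(A_eq V (h T)).1]
    rfl
  · have h1 := Pool.Agent.N748.JX.jxtF d hA m h ⟨hh, hε⟩ V hV
    have hp : (∏ j, 2 * V j) ≠ 0 := Finset.prod_ne_zero_iff.2 fun j _ => by
      have := hV j
      positivity
    have e : (∏ j, 1 / (2 * V j)) = 1 / ∏ j, 2 * V j := by
      rw [Finset.prod_div_distrib, Finset.prod_const_one]
    rw [e] at h1
    have h2 := h1.div_const (1 / ∏ j, 2 * V j)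
    rw [div_self (one_div_ne_zero hp)] at h2
    refine h2.congr fun T => ?_
    rw [(A_eq V (h T)).1]
    exact quot _ _ _ _ _ hp
  · have h1 := Pool.Agent.N748.JX.jxfF d hA m h V hinj hV
    rw [(A_eq V h).1] at h1
    set B : ℝ := ∏ j, ∏ l, if j = l then 1 else ‖riemannZeta (1 + ((h j - h l : ℝ) : ℂ) * Complex.I)‖ ^ (V j * V l)
      with hB
    have hB0 : 0 < B := by
      refine Finset.prod_pos fun j _ => Finset.prod_pos fun l _ => ?_
      split_ifs with hjl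
      · exact one_pos
      · refine Real.rpow_pos_of_pos (norm_pos_iff.2 ?_) _
        refine riemannZeta_ne_zero_of_one_le_re ?_
        simp
    have hp : 0 < ∏ j, 1 / (2 * V j) := Finset.prod_pos fun j _ => by
      have := hV j
      positivity
    have hA0 := (A_eq V h).2
    have h2 := h1.div_const (A V h * B * ∏ j, 1 / (2 * V j))
    rw [div_self (mul_pos (mul_pos hA0 hB0) hp).ne'] at h2
    refine h2.congr' ?_
    filter_upwards [hd0, hsmall] with T hT hT2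
    have h3 : (0:ℝ) < 2 * d T := by linarith
    have h7 : 0 < Real.log (1 / (2 * d T)) := Real.log_pos (by rw [lt_div_iff₀ h3]; linarith)
    set w : ℝ := Real.sqrt (Real.pi * Real.log (1 / (2 * d T))) with hw
    have h8 : 0 < w := Real.sqrt_pos.2 (by positivity)
    have e2 : (∏ j, (2 * d T) ^ (V j ^ 2) / (2 * V j * w)) =
        (2 * d T) ^ (∑ j, V j ^ 2) * (∏ j, 1 / (2 * V j)) / w ^ m := by
      have e3 : ∀ j, (2 * d T) ^ (V j ^ 2) / (2 * V j * w) = (2 * d T) ^ (V j ^ 2) * (1 / (2 * V j)) * (1 / w) := by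
        intro j
        have := (hV j).ne'
        field_simp
      rw [Finset.prod_congr rfl fun j _ => e3 j, Finset.prod_mul_distrib, Finset.prod_mul_distrib,
        Finset.prod_const, Finset.card_univ, Fintype.card_fin, Real.rpow_sum_of_pos h3, one_div_pow]
      ring
    have h5 : (0:ℝ) < (2 * d T) ^ (∑ j, V j ^ 2) := Real.rpow_pos_of_pos h3 _
    change w ^ m * (2 * d T) ^ (-(∑ j, V j ^ 2)) * P T {t | ∀ j, (2 * d T) ^ (-(V j)) < z (d T) (t + h j)} /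
      (A V h * B * ∏ j, 1 / (2 * V j)) = _
    rw [e2, Real.rpow_neg h3.le]
    field_simp

end Pool.Agent.Results.MP_069854_nt.JointLargeValues
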