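import Pool.Agent.N12.MH.GpHt

set_option autoImplicit false

/-!
# MP_069854_nt: the shifted moments of zeta over the values of functions of non-integral order

Let `f t = ∑ a_x t ^ x` be a generalised polynomial (finitely many real exponents `x`) whose largest exponent `c > 0` is not
an integer, with `a_c > 0`; for instance `f t = α t ^ (3 / 2)`. We replace the mean over `[0, T]` in the normalised shifted
moment `Q_k(v, T)` of the problem by the mean over the heights `f j + β`, `J ≤ j < J + L`, in `[T, 2T]`. For EVERY such `f`,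
every `k ≥ 1`, uniformly in the translation `β` and in the window, tested against functions of `v` whose Fourier transform is
supported near the lower edge of the spectrum, this sparse shifted moment has the limit predicted by the unitary matrix
integrals, with the exact arithmetic factor `a_k`, also over short windows with only `J ^ (1 - κ)` terms.

Proof. `⌊c⌋` Weyl - van der Corput differencing steps and the inequality of Kusmin and Landau (`Pool.Agent.TH915.PW.Exp`)
bound the exponential sums of `f j log (m/n)` over the windows with a power saving, uniformly for all different `m`, `n` up to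
a small power of `J` (`Pool.Agent.N12.MH`). Then the limit theorem for the shifted moments of zeta over sparse sets of heights
with small character sums of helper461 (`Pool.Agent.R461.HM`) can be applied.
-/

namespace Pool.Agent.Results.MP_069854_nt.NonIntegralOrderHeights

open Complex MeasureTheory
open scoped ContDiff
open Pool.Agent.N12.MH.Gp (gp Short)

noncomputable section

/-- the arithmetic factor `a_k` -/
def arithmeticFactor (k : ℕ) : ℝ :=
  ∏' p : Nat.Primes, ((1 - 1 / (p : ℝ)) ^ (k ^ 2) *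
    ∑' m : ℕ, ((m + k - 1).choose m : ℝ) ^ 2 * (1 / (p : ℝ)) ^ m)

/-- `φ(v) = ∫ ψ(ξ) e^{iξv} dξ` -/
def phi (ψ : ℝ → ℂ) (v : ℝ) : ℂ := ∫ ξ : ℝ, ψ ξ * exp (I * ξ * v)

/-- the normalised shifted moment over the heights `f j + β`, `J ≤ j < J + L`, with the shift `v / log T` -/
def shifted (k : ℕ) (f : ℝ → ℝ) (β T : ℝ) (J L : ℕ) (v : ℝ) : ℂ :=
  ((Real.log T : ℂ) ^ (k ^ 2))⁻¹ * ((L : ℂ)⁻¹ * ∑ j ∈ Finset.Ico J (J + L),
    riemannZeta (1 / 2 + I * v / Real.log T + I * ((f j + β : ℝ) : ℂ)) ^ k *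
      riemannZeta (1 / 2 + I * v / Real.log T - I * ((f j + β : ℝ) : ℂ)) ^ k)

lemma phi_eq (ψ : ℝ → ℂ) (v : ℝ) : phi ψ v = W182.KO.P ψ (v * I) := by
  unfold phi W182.KO.P
  congr 1; funext ξ
  congr 2
  ring

/-- **The shifted moments of zeta over the values of functions of non-integral order.** Let `c > 0` not be an integer. There
are `κ > 0` and `η > 0` such that for all `k ≥ 1`, all `D > 0`, all smooth `ψ` with compact support which vanish above
`η / D` and all generalised polynomials `f` of order `c`: the integral of `φ(v)` times the normalised shifted moment over the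
heights `f j + β`, `J ≤ j < J + L`, with the shift `v / log T` tends to
`2 π a_k ∫_0^∞ u ^ (k ^ 2 - 1) / (k ^ 2 - 1)! ψ(2 u) du` for `T → ∞`, uniformly in `β` and in the windows with
`J ^ (1 - κ) ≤ L ≤ J`, `T ≤ J ^ D` and all `f j + β` in `[T, 2T]`. -/
theorem result (c : ℝ) (hc : 0 < c) (hcn : ∀ m : ℕ, c ≠ m) : ∃ κ η : ℝ, 0 < κ ∧ 0 < η ∧ ∀ k : ℕ, 1 ≤ k → ∀ D : ℝ, 0 < D →
    ∀ ψ : ℝ → ℂ, ContDiff ℝ ∞ ψ → HasCompactSupport ψ → (∀ ξ : ℝ, η / D < ξ → ψ ξ = 0) →
      ∀ (F : Finset ℝ) (a : ℝ → ℝ), c ∈ F → (∀ x ∈ F, x ≤ c) → 0 < a c → ∀ δ : ℝ, 0 < δ → ∃ T₀ : ℝ, ∀ T : ℝ, T₀ ≤ T →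
        ∀ (J L : ℕ) (β : ℝ), Short (gp F a) κ D β T J L →
          Integrable (fun v : ℝ => phi ψ v * shifted k (gp F a) β T J L v) ∧
          ‖(∫ v : ℝ, phi ψ v * shifted k (gp F a) β T J L v) - 2 * Real.pi * arithmeticFactor k *
            ∫ u in Set.Ioi (0:ℝ), (u : ℂ) ^ (k ^ 2 - 1) / (k ^ 2 - 1).factorial * ψ (2 * u)‖ ≤ δ := by
  obtain ⟨η, hη, H⟩ := Pool.Agent.N12.MH.Gp.gp_heights c hc hcn
  refine ⟨η / 2, η / 4, by positivity, by positivity, fun k hk D hD ψ hψ hcs hs F a hcF hmax hac δ hδ => ?_⟩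
  have hθ : 0 < η / (8 * D) := by positivity
  have hθ' : η / (8 * D) < η / (2 * D) := by
    apply div_lt_div_of_pos_left hη (by positivity)
    linarith
  have hs' : ∀ ξ : ℝ, 2 * (η / (8 * D)) < ξ → ψ ξ = 0 := by
    intro ξ hξ
    refine hs ξ ?_
    have e : η / 4 / D = 2 * (η / (8 * D)) := by field_simp; norm_num
    rw [e]
    exact hξ
  obtain ⟨T₁, hT₁, h⟩ := Pool.Agent.R461.HM.limit_form hθ.le hθ' hψ hcs hs' hk δ hδ
  obtain ⟨T₂, h'⟩ := H D hD F a hcF hmax hac
  refine ⟨max T₁ T₂, fun T hT J L β hw => ?_⟩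
  have hT2 := (le_max_right T₁ T₂).trans hT
  obtain ⟨-, h3⟩ := h' T hT2 J L β hw
  obtain ⟨h1, h2⟩ := h T ((le_max_left _ _).trans hT) _ h3
  have e : (fun v : ℝ => phi ψ v * shifted k (gp F a) β T J L v) =
      fun v : ℝ => W182.KO.P ψ (v * I) *
        Pool.Agent.R461.HM.Qn k (Pool.Agent.R461.HM.unif L (fun j => gp F a ((J + j : ℕ) : ℝ) + β)) v T := by
    funext v
    rw [phi_eq]
    unfold shifted Pool.Agent.R461.HM.Qn
    rw [Pool.Agent.R461.HM.integral_unif, Finset.sum_Ico_eq_sum_range, Nat.add_sub_cancel_left]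
  rw [e]
  exact ⟨h1, h2⟩

end

end Pool.Agent.Results.MP_069854_nt.NonIntegralOrderHeights
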