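import Pool.Agent.N748.MJ.Fin2

set_option autoImplicit false

/-!
# The moments with two shifts proportional to the distance to the critical line
-/

namespace Pool.Agent.Results.MP_069854_nt.ProportionalShifts

open MeasureTheory Filter Topology

/-- the arithmetic factor `a_k = ∏_p (1 - 1/p)^{k²} Σ_m d_k(p^m)² p^{-m}`, `d_k(p^m) = k (k+1) ... (k+m-1) / m!` -/
noncomputable def ak (k : ℝ) : ℝ :=
  ∏' p : Nat.Primes, ((1 - 1 / (p : ℝ)) ^ (k ^ 2) *
    ∑' m : ℕ, (∏ i ∈ Finset.range m, (k + i) / ((i : ℝ) + 1)) ^ 2 * (1 / (p : ℝ)) ^ m)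

/-- the modulus of zeta at distance `d` from the critical line and height `t` -/
noncomputable def z (d t : ℝ) : ℝ := ‖riemannZeta (1 / 2 + d + t * Complex.I)‖

/-- the normalised mean of `ζ(1/2 + d + iαd + it)^k ζ(1/2 + d + iαd - it)^k` over the `t` in `[0, T]` at which both
factors `|ζ|` are at most `(2d)^(-V)` -/
noncomputable def Q (k : ℕ) (α V d T : ℝ) : ℂ :=
  (((2 * d) ^ ((k : ℝ) ^ 2) * (1 / T) : ℝ) : ℂ) *
    ∫ t in {t : ℝ | t ∈ Set.Icc 0 T ∧ z d (t + d * α) ≤ (2 * d) ^ (-V) ∧ z d (t - d * α) ≤ (2 * d) ^ (-V)},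
      riemannZeta (1 / 2 + d + Complex.I * (d * α) + Complex.I * t) ^ k *
        riemannZeta (1 / 2 + d + Complex.I * (d * α) - Complex.I * t) ^ k

theorem result (d : ℝ → ℝ) (hd0 : ∀ᶠ T : ℝ in atTop, 0 < d T) (hd : Tendsto d atTop (𝓝 0))
    (hdL : Tendsto (fun T : ℝ => d T * Real.log T / Real.log (1 / d T) ^ 2) atTop atTop) (k : ℕ) (α V : ℝ)
    (hV : (k : ℝ) < V) :
    Tendsto (fun T : ℝ => Q k α V (d T) T) atTop (𝓝 ((ak k : ℂ) * (1 + Complex.I * α) ^ (-((k : ℂ) ^ 2)))) := by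
  have h := Pool.Agent.N748.MJ.ksF d ⟨hd0, hd, hdL⟩ k α V hV
  have e : Pool.Agent.N748.MG.aC (k : ℂ) = ((ak k : ℝ) : ℂ) := by
    have := (Pool.Agent.N748.MG.aC_akR (k : ℝ)).2
    rw [Complex.ofReal_natCast] at this
    exact this
  rw [e] at h
  exact h

end Pool.Agent.Results.MP_069854_nt.ProportionalShifts
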